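import Pool.Agent.W601.RP.Stm2

set_option autoImplicit false
open scoped Classical
open Filter Topology

namespace Pool.Agent.W279.RP

open Pool.Agent.W601.RP

theorem card_step (S : Finset ℕ) (m : ℕ) :
    (S.filter (fun t => m ≤ t)).card ≤ (S.filter (fun t => m + 1 ≤ t)).card + 1 := by
  have h : S.filter (fun t => m ≤ t) ⊆ insert m (S.filter (fun t => m + 1 ≤ t)) := by
    intro t ht
    rw [Finset.mem_filter] at ht
    rw [Finset.mem_insert, Finset.mem_filter]
    rcases Nat.eq_or_lt_of_le ht.2 with h | h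
    · exact Or.inl h.symm
    · exact Or.inr ⟨ht.1, h⟩
  exact (Finset.card_le_card h).trans (Finset.card_insert_le _ _)

theorem exists_tail (S : Finset ℕ) (thr b : ℕ) (h : thr + b ≤ S.card) :
    ∃ u, thr ≤ u ∧ (S.filter (fun t => u ≤ t)).card = b := by
  have hex : ∃ n, (S.filter (fun t => thr + n ≤ t)).card ≤ b := by
    refine ⟨S.sup id + 1, ?_⟩
    have : S.filter (fun t => thr + (S.sup id + 1) ≤ t) = ∅ := by
      rw [Finset.filter_eq_empty_iff]
      intro t ht h2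
      have : t ≤ S.sup id := Finset.le_sup (f := id) ht
      omega
    rw [this]
    simp
  have h0 : b ≤ (S.filter (fun t => thr ≤ t)).card := by
    have h1 : S ⊆ (S.filter (fun t => thr ≤ t)) ∪ Finset.range thr := by
      intro t ht
      rw [Finset.mem_union, Finset.mem_filter, Finset.mem_range]
      rcases le_or_gt thr t with h | h
      · exact Or.inl ⟨ht, h⟩
      · exact Or.inr h
    have h2 := (Finset.card_le_card h1).trans (Finset.card_union_le _ _)
    rw [Finset.card_range] at h2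
    omega
  refine ⟨thr + Nat.find hex, Nat.le_add_right _ _, ?_⟩
  have h1 := Nat.find_spec hex
  rcases Nat.eq_zero_or_pos (Nat.find hex) with hz | hz
  · rw [hz] at h1 ⊢
    exact le_antisymm h1 h0
  · have h2 := Nat.find_min hex (m := Nat.find hex - 1) (by omega)
    have h3 := card_step S (thr + (Nat.find hex - 1))
    rw [show thr + (Nat.find hex - 1) + 1 = thr + Nat.find hex by omega] at h3
    omega

theorem N_ge (t : ℕ) : t + 1 ≤ N t := by
  unfold N
  have := Nat.self_le_factorial (t + 1)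
  omega

theorem pick (hNU : S_NU0) (k : ℕ → (ℕ →₀ ℤ)) (hk : ∀ L : ℕ, ∃ j, L < (k j).support.card)
    (l T0 : ℕ) : ∃ j u : ℕ, T0 ≤ u ∧
      ((k j).support.filter (fun t => u ≤ t)).card = 2 ^ (l + 6) ∧
      (∀ t, u ≤ t → (8 : ℝ) ≤ (1 / 2 : ℝ) ^ (l + 3) * N t) ∧
      ∀ t, u ≤ t → nu t ≤ (1 / 2 : ℝ) ^ (l + 2) / 2 ^ (l + 6) := by
  have hc : (0 : ℝ) < (1 / 2 : ℝ) ^ (l + 2) / 2 ^ (l + 6) := by positivity
  obtain ⟨T1, hT1⟩ := (hNU.1 _ hc).bddAbove
  obtain ⟨j, hj⟩ := hk (max T0 (max (T1 + 1) (2 ^ (l + 6))) + 2 ^ (l + 6))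
  obtain ⟨u, hu, hcard⟩ := exists_tail (k j).support _ (2 ^ (l + 6)) hj.le
  refine ⟨j, u, (le_max_left _ _).trans hu, hcard, fun t ht => ?_, fun t ht => ?_⟩
  · have h1 : 2 ^ (l + 6) ≤ t :=
      ((le_max_right _ _).trans (le_max_right _ _)).trans (hu.trans ht)
    have h2 : (2 ^ (l + 6) : ℝ) ≤ N t := by
      have : 2 ^ (l + 6) ≤ N t := h1.trans ((Nat.le_succ t).trans (N_ge t))
      exact_mod_cast this
    have h3 : (1 / 2 : ℝ) ^ (l + 3) * 2 ^ (l + 6) = 8 := by
      rw [show l + 6 = (l + 3) + 3 by ring, pow_add 2 (l + 3) 3, ← mul_assoc, ← mul_pow]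
      norm_num
    rw [← h3]
    exact mul_le_mul_of_nonneg_left h2 (by positivity)
  · by_contra hcon
    have h1 : t ≤ T1 := hT1 (show t ∈ {t | (1 / 2 : ℝ) ^ (l + 2) / 2 ^ (l + 6) ≤ nu t} from
      (not_le.mp hcon).le)
    have h2 : T1 + 1 ≤ t :=
      ((le_max_left _ _).trans (le_max_right _ _)).trans (hu.trans ht)
    omega

theorem block (u : ℕ → ℕ) (hu : StrictMono u) (t : ℕ) (h : u 0 ≤ t) :
    ∃ l, u l ≤ t ∧ t < u (l + 1) := by
  have hex : ∃ l, t < u (l + 1) := ⟨t, lt_of_lt_of_le (Nat.lt_succ_self t) (hu.id_le (t + 1))⟩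
  refine ⟨Nat.find hex, ?_, Nat.find_spec hex⟩
  rcases Nat.eq_zero_or_pos (Nat.find hex) with hz | hz
  · rw [hz]
    exact h
  · have := Nat.find_min hex (m := Nat.find hex - 1) (by omega)
    rw [not_lt, show Nat.find hex - 1 + 1 = Nat.find hex by omega] at this
    exact this

/-- the representative of `σ • (a / n)` -/
theorem rep (n a : ℕ) (ha : a < n) (σ : ℤ) (hσ : σ = 0 ∨ σ = 1 ∨ σ = -1) :
    ∃ f : ℕ, f < n ∧ ((((f : ℝ) / (n : ℝ)) : ℝ) : TT) = σ • ((((a : ℝ) / (n : ℝ)) : ℝ) : TT) := by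
  have hn : 0 < n := lt_of_le_of_lt (Nat.zero_le _) ha
  have hn' : (n : ℝ) ≠ 0 := by exact_mod_cast hn.ne'
  rcases hσ with h | h | h
  · refine ⟨0, hn, ?_⟩
    rw [h]
    simp
  · refine ⟨a, ha, ?_⟩
    rw [h, one_smul]
  · rcases Nat.eq_zero_or_pos a with hz | hz
    · refine ⟨0, hn, ?_⟩
      rw [hz]
      simp
    · refine ⟨n - a, by omega, ?_⟩
      rw [h, neg_smul, one_smul, Nat.cast_sub ha.le, sub_div, div_self hn', AddCircle.coe_sub]
      have : ((1 : ℝ) : TT) = 0 := AddCircle.coe_period 1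
      rw [this, zero_sub]

theorem norm_sgn (σ : ℤ) (hσ : σ = 0 ∨ σ = 1 ∨ σ = -1) (y : TT) : ‖σ • y‖ ≤ ‖y‖ := by
  rcases hσ with h | h | h
  · rw [h, zero_smul, norm_zero]
    exact norm_nonneg _
  · rw [h, one_smul]
  · rw [h, neg_smul, one_smul, norm_neg]

theorem supp : S_GH → S_NU0 → S_CIR → S_SGN → S_SUPP := by
  intro hGH hNU hCIR hSGN k hRed hNull
  by_contra hcon
  push Not at hcon
  choose J U hT hcard hN hnu using pick hNU k hcon
  -- thresholds
  let T : ℕ → ℕ := fun l => Nat.rec 0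
    (fun l T => max (U l T + 1) ((k (J l T)).support.sup id + 1)) l
  have hTs : ∀ l, T (l + 1) = max (U l (T l) + 1) ((k (J l (T l))).support.sup id + 1) :=
    fun l => rfl
  let jj : ℕ → ℕ := fun l => J l (T l)
  let u : ℕ → ℕ := fun l => U l (T l)
  have hu : StrictMono u := by
    refine strictMono_nat_of_lt_succ fun l => ?_
    have h1 : T (l + 1) ≤ u (l + 1) := hT (l + 1) (T (l + 1))
    have h2 : u l + 1 ≤ T (l + 1) := by
      rw [hTs]
      exact le_max_left _ _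
    omega
  have hsup : ∀ l, ∀ t ∈ (k (jj l)).support, t < u (l + 1) := by
    intro l t ht
    have h1 : T (l + 1) ≤ u (l + 1) := hT (l + 1) (T (l + 1))
    have h2 : (k (jj l)).support.sup id + 1 ≤ T (l + 1) := by
      rw [hTs]
      exact le_max_right _ _
    have h3 : t ≤ (k (jj l)).support.sup id := Finset.le_sup (f := id) ht
    omega
  have hB : ∀ l, ((k (jj l)).support.filter (fun t => u l ≤ t)).card = 2 ^ (l + 6) :=
    fun l => hcard l (T l)
  have hN' : ∀ l t, u l ≤ t → (8 : ℝ) ≤ (1 / 2 : ℝ) ^ (l + 3) * N t := fun l => hN l (T l)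
  have hnu' : ∀ l t, u l ≤ t → nu t ≤ (1 / 2 : ℝ) ^ (l + 2) / 2 ^ (l + 6) :=
    fun l => hnu l (T l)
  clear_value T
  -- the indices are different
  have hinj : Function.Injective jj := by
    have key : ∀ l l', l < l' → jj l ≠ jj l' := by
      intro l l' hll he
      have h1 : ((k (jj l')).support.filter (fun t => u l' ≤ t)).Nonempty := by
        rw [← Finset.card_pos, hB]
        positivity
      obtain ⟨t, ht⟩ := h1
      rw [Finset.mem_filter] at ht
      rw [← he] at ht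
      have h2 := hsup l t ht.1
      have h3 : u (l + 1) ≤ u l' := hu.monotone hll
      omega
    intro l l' he
    rcases lt_trichotomy l l' with h | h | h
    · exact absurd he (key l l' h)
    · exact h
    · exact absurd he.symm (key l' l h)
  -- sums of the weights of the blocks
  have hblock : ∀ l, ∑ t ∈ (k (jj l)).support.filter (fun t => u l ≤ t), nu t ≤
      (1 / 2 : ℝ) ^ (l + 2) := by
    intro l
    have h1 := Finset.sum_le_card_nsmul ((k (jj l)).support.filter (fun t => u l ≤ t)) nu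
      ((1 / 2 : ℝ) ^ (l + 2) / 2 ^ (l + 6)) (fun t ht => hnu' l t (Finset.mem_filter.mp ht).2)
    rw [hB, nsmul_eq_mul] at h1
    refine h1.trans (le_of_eq ?_)
    push_cast
    field_simp
  set W : Set ℕ := ⋃ l, {t | t ∈ (k (jj l)).support ∧ u l ≤ t} with hW
  have hfin : ∀ F : Finset ℕ, ∑ t ∈ F, W.indicator nu t ≤ 1 / 2 := by
    intro F
    let L := F.sup id + 1
    have h1 : ∀ t ∈ F, W.indicator nu t ≤ ∑ l ∈ Finset.range L,
        (if t ∈ (k (jj l)).support.filter (fun t => u l ≤ t) then nu t else 0) := by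
      intro t ht
      have hnn : ∀ l ∈ Finset.range L,
          0 ≤ (if t ∈ (k (jj l)).support.filter (fun t => u l ≤ t) then nu t else 0) := by
        intro l _
        split_ifs
        · exact hNU.2.2 t
        · exact le_rfl
      by_cases htW : t ∈ W
      · rw [Set.indicator_of_mem htW]
        obtain ⟨l, hl⟩ := Set.mem_iUnion.mp htW
        have hlL : l ∈ Finset.range L := by
          rw [Finset.mem_range]
          have h2 : t ≤ F.sup id := Finset.le_sup (f := id) ht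
          have h3 : l ≤ u l := hu.id_le l
          have h4 : u l ≤ t := hl.2
          show l < F.sup id + 1
          omega
        have h5 := Finset.single_le_sum hnn hlL
        rw [if_pos (Finset.mem_filter.mpr hl)] at h5
        exact h5
      · rw [Set.indicator_of_notMem htW]
        exact Finset.sum_nonneg hnn
    refine (Finset.sum_le_sum h1).trans ?_
    rw [Finset.sum_comm]
    have h2 : ∀ l ∈ Finset.range L, ∑ t ∈ F,
        (if t ∈ (k (jj l)).support.filter (fun t => u l ≤ t) then nu t else 0) ≤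
        (1 / 2 : ℝ) ^ (l + 2) := by
      intro l _
      rw [← Finset.sum_filter]
      refine (Finset.sum_le_sum_of_subset_of_nonneg ?_ fun t _ _ => hNU.2.2 t).trans (hblock l)
      intro t ht
      exact (Finset.mem_filter.mp ht).2
    refine (Finset.sum_le_sum h2).trans ?_
    have h3 : ∀ m : ℕ, ∑ l ∈ Finset.range m, (1 / 2 : ℝ) ^ (l + 2) = 1 / 2 - (1 / 2 : ℝ) ^ (m + 1) := by
      intro m
      induction m with
      | zero => norm_num
      | succ m ih =>
        rw [Finset.sum_range_succ, ih, pow_succ (1 / 2 : ℝ) (m + 1)]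
        ring
    rw [h3]
    have : (0 : ℝ) < (1 / 2 : ℝ) ^ (L + 1) := by positivity
    linarith
  have hnn : ∀ t, 0 ≤ W.indicator nu t := fun t =>
    Set.indicator_nonneg (fun t _ => hNU.2.2 t) t
  have hsum : Summable (W.indicator nu) := summable_of_sum_le hnn hfin
  have htsum : ∑' t, W.indicator nu t < 1 := by
    have : ∑' t, W.indicator nu t ≤ 1 / 2 := hsum.tsum_le_of_sum_le hfin
    linarith
  -- the families
  let FF : ℕ → Set (ℕ → ℕ) := fun l => {f | (∀ t, f t < N t ∧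
    (f t ≠ 0 → t ∈ (k (jj l)).support ∧ u l ≤ t)) ∧
    ∀ t, ‖((((f t : ℝ) / (N t : ℝ)) : ℝ) : TT)‖ ≤ (1 / 2 : ℝ) ^ (l + 3)}
  have hF1 : ∀ l, ∀ f ∈ FF l, ∀ t, f t < N t ∧ (f t ≠ 0 → t ∈ (k (jj l)).support ∧ u l ≤ t) :=
    fun l f hf => hf.1
  have hF2 : ∀ l (r : TT), ∃ f ∈ FF l,
      1 / 8 ≤ ‖r + ∑ t ∈ (k (jj l)).support.filter (fun t => u l ≤ t),
        (k (jj l) t) • ((((f t : ℝ) / (N t : ℝ)) : ℝ) : TT)‖ := by
    intro l r
    have hδ : (0 : ℝ) < (1 / 2 : ℝ) ^ (l + 3) := by positivity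
    have hδ2 : (1 / 2 : ℝ) ^ (l + 3) ≤ 1 / 2 := by
      calc (1 / 2 : ℝ) ^ (l + 3) ≤ (1 / 2 : ℝ) ^ 1 :=
            pow_le_pow_of_le_one (by norm_num) (by norm_num) (by omega)
        _ = 1 / 2 := pow_one _
    have ha : ∀ t, ∃ a : ℕ, t ∈ (k (jj l)).support.filter (fun t => u l ≤ t) →
        a < N t ∧ ‖((((a : ℝ) / (N t : ℝ)) : ℝ) : TT)‖ ≤ (1 / 2 : ℝ) ^ (l + 3) ∧
        (1 / 2 : ℝ) ^ (l + 3) / 2 ≤ ‖(k (jj l) t) • ((((a : ℝ) / (N t : ℝ)) : ℝ) : TT)‖ := by
      intro t
      by_cases ht : t ∈ (k (jj l)).support.filter (fun t => u l ≤ t)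
      · rw [Finset.mem_filter] at ht
        obtain ⟨a, h1, h2, h3⟩ := hCIR.2.2.1 (N t) (k (jj l) t) ((1 / 2 : ℝ) ^ (l + 3)) hδ hδ2
          (hN' l t ht.2) (Finsupp.mem_support_iff.mp ht.1) (hRed (jj l) t).1 (hRed (jj l) t).2
        exact ⟨a, fun _ => ⟨h1, h2, h3⟩⟩
      · exact ⟨0, fun h => absurd h ht⟩
    choose a ha using ha
    obtain ⟨σ, hσ, hσ2⟩ := (hSGN ((k (jj l)).support.filter (fun t => u l ≤ t))
      (fun t => (k (jj l) t) • ((((a t : ℝ) / (N t : ℝ)) : ℝ) : TT)) ((1 / 2 : ℝ) ^ (l + 3)) hδ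
      (fun t ht => (ha t ht).2.2) (by
        rw [hB]
        have h3 : (1 / 2 : ℝ) ^ (l + 3) * 2 ^ (l + 6) = 8 := by
          rw [show l + 6 = (l + 3) + 3 by ring, pow_add 2 (l + 3) 3, ← mul_assoc, ← mul_pow]
          norm_num
        push_cast
        rw [h3]
        norm_num)).1 r
    have hf : ∀ t, ∃ f : ℕ, f < N t ∧
        (t ∈ (k (jj l)).support.filter (fun t => u l ≤ t) →
          ((((f : ℝ) / (N t : ℝ)) : ℝ) : TT) = σ t • ((((a t : ℝ) / (N t : ℝ)) : ℝ) : TT)) ∧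
        (t ∉ (k (jj l)).support.filter (fun t => u l ≤ t) → f = 0) := by
      intro t
      by_cases ht : t ∈ (k (jj l)).support.filter (fun t => u l ≤ t)
      · obtain ⟨f, h1, h2⟩ := rep (N t) (a t) (ha t ht).1 (σ t) (hσ t)
        exact ⟨f, h1, fun _ => h2, fun h => absurd ht h⟩
      · exact ⟨0, lt_of_lt_of_le (Nat.succ_pos t) (N_ge t), fun h => absurd h ht, fun _ => rfl⟩
    choose f hf1 hf2 hf3 using hf
    refine ⟨f, ⟨fun t => ⟨hf1 t, fun h => ?_⟩, fun t => ?_⟩, ?_⟩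
    · by_contra hc
      exact h (hf3 t fun h' => hc (Finset.mem_filter.mp h'))
    · by_cases ht : t ∈ (k (jj l)).support.filter (fun t => u l ≤ t)
      · rw [hf2 t ht]
        exact (norm_sgn _ (hσ t) _).trans (ha t ht).2.1
      · rw [hf3 t ht]
        simp only [Nat.cast_zero, zero_div, AddCircle.coe_zero, norm_zero]
        exact hδ.le
    · have : ∑ t ∈ (k (jj l)).support.filter (fun t => u l ≤ t),
          (k (jj l) t) • ((((f t : ℝ) / (N t : ℝ)) : ℝ) : TT) =
          ∑ t ∈ (k (jj l)).support.filter (fun t => u l ≤ t),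
          σ t • ((k (jj l) t) • ((((a t : ℝ) / (N t : ℝ)) : ℝ) : TT)) := by
        refine Finset.sum_congr rfl fun t ht => ?_
        rw [hf2 t ht, smul_comm]
      rw [this]
      exact hσ2
  have hF3 : ∀ g : ℕ → ℕ, (∀ t < u 0, g t = 0) →
      (∀ l, ∃ f ∈ FF l, ∀ t, u l ≤ t → t < u (l + 1) → g t = f t) →
      NullC (fun t => ((((g t : ℝ) / (N t : ℝ)) : ℝ) : TT)) := by
    intro g _ hg A _ η hη
    obtain ⟨L, hL⟩ := exists_pow_lt_of_lt_one hη (show (1 / 2 : ℝ) < 1 by norm_num)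
    refine (Set.finite_lt_nat (u L)).subset ?_
    rintro t ⟨_, ht⟩
    by_contra hc
    have hc' : u L ≤ t := not_lt.mp hc
    obtain ⟨l, hl1, hl2⟩ := block u hu t ((hu.monotone (Nat.zero_le L)).trans hc')
    have hLl : L ≤ l := by
      by_contra h
      have : u (l + 1) ≤ u L := hu.monotone (by omega)
      omega
    obtain ⟨f, hf, hf2⟩ := hg l
    have h1 := hf.2 t
    rw [← hf2 t hl1 hl2] at h1
    have h2 : (1 / 2 : ℝ) ^ (l + 3) ≤ (1 / 2 : ℝ) ^ L :=
      pow_le_pow_of_le_one (by norm_num) (by norm_num) (by omega)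
    linarith
  obtain ⟨q, hq, hq2⟩ := hGH (fun l => k (jj l)) u hu hsup hsum htsum FF hF1 hF2 hF3
  have hlim := (hNull (x q) (AddSubgroup.subset_closure ⟨q, hq, rfl⟩)).comp
    hinj.nat_tendsto_atTop
  have h1 := (tendsto_zero_iff_norm_tendsto_zero.mp hlim).eventually
    (gt_mem_nhds (show (0 : ℝ) < 1 / 8 by norm_num))
  obtain ⟨l, hl⟩ := h1.exists
  exact absurd (hq2 l) (not_le.mpr hl)

end Pool.Agent.W279.RP
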